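import Mathlib

set_option autoImplicit false

namespace Pool.Agent.Results.MP_978236_an.No

open Set Filter Topology Complex

open Classical in
/-- extension by zero of a function on `U` -/
noncomputable def ext0 {n : ℕ} (U : Set (Fin n → ℂ)) (f : U → ℂ) (x : Fin n → ℂ) : ℂ :=
  if h : x ∈ U then f ⟨x, h⟩ else 0

/-- complex differentiable along every complex line -/
def IsHol {n : ℕ} (U : Set (Fin n → ℂ)) (f : U → ℂ) : Prop :=
  ∀ a v : Fin n → ℂ, DifferentiableOn ℂ (fun t : ℂ => ext0 U f (a + t • v)) {t | a + t • v ∈ U}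

lemma IsHol.of_diff {n : ℕ} {U : Set (Fin n → ℂ)} {F : (Fin n → ℂ) → ℂ}
    (h : DifferentiableOn ℂ F U) : IsHol U fun u => F u := fun a v =>
  (h.comp (f := fun t : ℂ => a + t • v) (by fun_prop) fun _ ht => ht).congr fun t ht => dif_pos ht

lemma IsHol.mul {n : ℕ} {U : Set (Fin n → ℂ)} {f g : C(U, ℂ)} (hf : IsHol U f) (hg : IsHol U g) :
    IsHol U (f * g : C(U, ℂ)) := fun a v => ((hf a v).mul (hg a v)).congr fun t ht => by
  simp [ext0, show a + t • v ∈ U from ht]

lemma IsHol.add {n : ℕ} {U : Set (Fin n → ℂ)} {f g : C(U, ℂ)} (hf : IsHol U f) (hg : IsHol U g) :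
    IsHol U (f + g : C(U, ℂ)) := fun a v => ((hf a v).add (hg a v)).congr fun t ht => by
  simp [ext0, show a + t • v ∈ U from ht]

lemma IsHol.alg {n : ℕ} (U : Set (Fin n → ℂ)) (c : ℂ) : IsHol U (algebraMap ℂ C(U, ℂ) c) :=
  fun a v => (differentiableOn_const c).congr fun t ht => by
    simp [ext0, show a + t • v ∈ U from ht]

/-- the algebra of holomorphic functions, inside the continuous functions with the topology of
uniform convergence on compact sets -/
def O {n : ℕ} (U : Set (Fin n → ℂ)) : Subalgebra ℂ C(U, ℂ) where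
  carrier := {f | IsHol U f}
  mul_mem' := IsHol.mul
  add_mem' := IsHol.add
  algebraMap_mem' := IsHol.alg U

/-- complete Hausdorff locally convex complex vector space -/
def IsPoly (X : Type) [AddCommGroup X] [Module ℂ X] [UniformSpace X] : Prop :=
  IsUniformAddGroup X ∧ ContinuousSMul ℂ X ∧ LocallyConvexSpace ℝ X ∧ T2Space X ∧ CompleteSpace X

/-- polynormed module: jointly continuous unital action compatible with the scalars -/
def IsPolyMod (A : Type) [CommRing A] [Algebra ℂ A] [TopologicalSpace A] (X : Type)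
    [AddCommGroup X] [Module ℂ X] [UniformSpace X] [Module A X] : Prop :=
  IsPoly X ∧ IsScalarTower ℂ A X ∧ ContinuousSMul A X

/-- projective in the sense of topological homology -/
def IsProj (A : Type) [CommRing A] [Algebra ℂ A] [TopologicalSpace A] (X : Type)
    [AddCommGroup X] [Module ℂ X] [UniformSpace X] [Module A X] : Prop :=
  ∀ (Y : Type) [AddCommGroup Y] [Module ℂ Y] [UniformSpace Y] [Module A Y], IsPolyMod A Y →
    ∀ φ : Y →L[A] X, (∃ ρ : X →L[ℂ] Y, ∀ x, φ (ρ x) = x) → ∃ σ : X →L[A] Y, ∀ x, φ (σ x) = x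

/-- `i` identifies the topological algebra `A` with the continuous functions satisfying `H`,
with pointwise operations and the topology of uniform convergence on compact sets -/
def IsAlg {T : Type} [TopologicalSpace T] (H : (T → ℂ) → Prop) (A : Type) [CommRing A]
    [Algebra ℂ A] [TopologicalSpace A] (i : A → C(T, ℂ)) : Prop :=
  IsEmbedding i ∧ (∀ f : C(T, ℂ), f ∈ range i ↔ H f) ∧ (∀ f g u, i (f + g) u = i f u + i g u) ∧
    (∀ f g u, i (f * g) u = i f u * i g u) ∧ ∀ (c : ℂ) u, i (algebraMap ℂ A c) u = c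

/-- topologically isomorphic, as a module, to the maps into a polynormed space that are continuous
and weakly satisfy `H` -/
def IsFree {T : Type} [TopologicalSpace T] (H : (T → ℂ) → Prop) (A : Type) [CommRing A]
    (i : A → C(T, ℂ)) (X : Type) [AddCommGroup X] [UniformSpace X] [Module A X] : Prop :=
  ∃ (E : Type) (_ : AddCommGroup E) (_ : Module ℂ E) (_ : UniformSpace E), IsPoly E ∧
    ∃ Φ : X → C(T, E), IsEmbedding Φ ∧
      (∀ g : C(T, E), g ∈ range Φ ↔ ∀ l : E →L[ℂ] ℂ, H fun u => l (g u)) ∧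
      (∀ x y u, Φ (x + y) u = Φ x u + Φ y u) ∧ ∀ (f : A) x u, Φ (f • x) u = i f u • Φ x u

lemma O_closed {n : ℕ} {U : Set (Fin n → ℂ)} (hU : IsOpen U) : IsClosed (O U : Set C(U, ℂ)) := by
  have := hU.locallyCompactSpace
  refine isClosed_iff_clusterPt.2 fun f hf a v => ?_
  have : (𝓝 f ⊓ 𝓟 (O U : Set C(U, ℂ))).NeBot := hf
  have h1 : Tendsto (fun g : C(U, ℂ) => g) (𝓝 f ⊓ 𝓟 (O U : Set C(U, ℂ))) (𝓝 f) := inf_le_left
  rw [ContinuousMap.tendsto_iff_tendstoLocallyUniformly] at h1
  refine TendstoLocallyUniformlyOn.differentiableOn (φ := 𝓝 f ⊓ 𝓟 (O U : Set C(U, ℂ)))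
    (F := fun g t => ext0 U g (a + t • v)) ?_ ?_ (hU.preimage (by fun_prop))
  · rw [tendstoLocallyUniformlyOn_iff_tendstoLocallyUniformly_comp_coe]
    have h2 := h1.comp (fun t : {t : ℂ | a + t • v ∈ U} => (⟨a + t.1 • v, t.2⟩ : U)) (by fun_prop)
    convert h2 using 1
    · ext g t; exact dif_pos t.2
    · ext t; exact dif_pos t.2
  · exact eventually_inf_principal.2 (Eventually.of_forall fun g hg => hg a v)

section gen
variable {A : Type} [CommRing A] (a b c : A)

def XX : Submodule A (A × A) where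
  carrier := {s | a * s.1 + b * s.2 = s.1 ∧ c * s.1 - a * s.2 = s.2}
  add_mem' := fun h k => ⟨by simp only [Prod.fst_add, Prod.snd_add]; linear_combination h.1 + k.1,
    by simp only [Prod.fst_add, Prod.snd_add]; linear_combination h.2 + k.2⟩
  zero_mem' := by simp
  smul_mem' := fun r s h => ⟨by simp only [Prod.smul_fst, Prod.smul_snd, smul_eq_mul]; linear_combination r * h.1,
    by simp only [Prod.smul_fst, Prod.smul_snd, smul_eq_mul]; linear_combination r * h.2⟩

lemma gens (h : A) (h2 : h * 2 = 1) (hq : a ^ 2 + b * c = 1) : ∃ g k : XX a b c,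
    (∀ s : XX a b c, s = s.1.1 • g + s.1.2 • k) ∧ g.1.1 + k.1.2 = 1 := by
  refine ⟨⟨(h * (1 + a), h * c), by linear_combination h * hq, by ring⟩,
    ⟨(h * b, h * (1 - a)), by ring, by linear_combination h * hq⟩, fun s => ?_,
    by linear_combination h2⟩
  refine Subtype.ext (Prod.ext ?_ ?_)
  · show s.1.1 = s.1.1 * (h * (1 + a)) + s.1.2 * (h * b)
    linear_combination -h * s.2.1 - s.1.1 * h2
  · show s.1.2 = s.1.1 * (h * c) + s.1.2 * (h * (1 - a))
    linear_combination -h * s.2.2 - s.1.2 * h2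

lemma genX [Algebra ℂ A] [UniformSpace A] (hA : IsPoly A) [IsTopologicalRing A]
    (hq : a ^ 2 + b * c = 1) :
    ∃ (X : Type) (_ : AddCommGroup X) (_ : Module ℂ X) (_ : UniformSpace X) (_ : Module A X),
      IsPolyMod A X ∧ IsProj A X ∧ ∃ (p r : X → A) (g k : X), (∀ s, s = p s • g + r s • k) ∧
        (∀ s, a * p s + b * r s = p s ∧ c * p s - a * r s = r s) ∧
        ((∀ s : X, s = 0) → (1 : A) = 0) := by
  obtain ⟨i1, i4, i3, i5, i2⟩ := hA
  obtain ⟨g, k, hs, hgk⟩ := gens a b c (algebraMap ℂ A 2⁻¹) (by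
    rw [← map_ofNat (algebraMap ℂ A) 2, ← map_mul]; simp) hq
  refine ⟨XX a b c, inferInstance, inferInstance, inferInstance, inferInstance,
    ⟨⟨(XX a b c).toAddSubgroup.isUniformAddGroup,
    IsInducing.continuousSMul (f := fun z : ℂ => z) .subtypeVal continuous_id fun {_ _} => rfl,
    IsInducing.locallyConvexSpace (f := (XX a b c).subtype.restrictScalars ℝ) .subtypeVal,
    inferInstance, IsClosed.completeSpace_coe (hs := ?_)⟩, inferInstance, inferInstance⟩, ?_,
    fun s => s.1.1, fun s => s.1.2, g, k, hs, fun s => s.2, fun h => ?_⟩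
  · exact IsClosed.inter (s₁ := {s : A × A | a * s.1 + b * s.2 = s.1})
      (s₂ := {s : A × A | c * s.1 - a * s.2 = s.2})
      (isClosed_eq (by fun_prop) (by fun_prop)) (isClosed_eq (by fun_prop) (by fun_prop))
  · rintro Y _ _ _ _ ⟨⟨j1, -⟩, -, j2⟩ φ ⟨ρ, hρ⟩
    refine ⟨⟨⟨⟨fun s => s.1.1 • ρ g + s.1.2 • ρ k, fun s t => ?_⟩, fun r s => ?_⟩, by fun_prop⟩,
      fun s => ?_⟩
    · simp only [Submodule.coe_add, Prod.fst_add, Prod.snd_add, add_smul]; abel
    · simp [mul_smul]
    · show φ (s.1.1 • ρ g + s.1.2 • ρ k) = s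
      rw [map_add, map_smul, map_smul, hρ, hρ, ← hs]
  · rw [h g, h k] at hgk
    simpa using hgk.symm
end gen

lemma O_poly {n : ℕ} {U : Set (Fin n → ℂ)} (hU : IsOpen U) : IsPoly (O U) := by
  have := hU.locallyCompactSpace
  have : IsUniformAddGroup C(U, ℂ) := IsUniformInducing.isUniformAddGroup
    (AddMonoidHom.mk' (ContinuousMap.toUniformOnFunIsCompact (α := U) (β := ℂ)) fun _ _ => rfl)
    ContinuousMap.isUniformEmbedding_toUniformOnFunIsCompact.isUniformInducing
  exact ⟨(O U).toSubring.toAddSubgroup.isUniformAddGroup, inferInstance,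
    IsInducing.locallyConvexSpace (f := (O U).val.toLinearMap.restrictScalars ℝ) .subtypeVal,
    inferInstance, (O_closed hU).completeSpace_coe⟩

lemma main {n : ℕ} {U : Set (Fin n → ℂ)} (hU : IsOpen U) (u0 : U) (a b c : O U)
    (hq : a ^ 2 + b * c = 1)
    (hz : ∀ x y : O U, a * x + b * y = x → c * x - a * y = y → ∃ u, x.1 u = 0 ∧ y.1 u = 0) :
    ∃ (X : Type) (_ : AddCommGroup X) (_ : Module ℂ X) (_ : UniformSpace X) (_ : Module (O U) X),
      IsPolyMod (O U) X ∧ IsProj (O U) X ∧ ¬ IsFree (IsHol U) (O U) Subtype.val X := by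
  have := hU.locallyCompactSpace
  have : IsTopologicalRing (O U) := Subring.instIsTopologicalRing (O U).toSubring
  obtain ⟨X, i1, i2, i3, i4, k1, k2, p, r, g, k, hs, he, h0⟩ := genX a b c (O_poly hU) hq
  refine ⟨X, i1, i2, i3, i4, k1, k2, ?_⟩
  rintro ⟨E, _, _, _, -, Φ, h7, h8, h1, h2⟩
  have h3 : ∀ e : E, e = 0 := fun e => by
    obtain ⟨s, h9⟩ := (h8 (ContinuousMap.const _ e)).2 fun l =>
      IsHol.of_diff (differentiableOn_const (l e))
    obtain ⟨u, h4, h5⟩ := hz _ _ (he s).1 (he s).2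
    have h6 := congrArg (fun x => Φ x u) (hs s)
    simp only [h1, h2, h4, h5, zero_smul, add_zero, h9] at h6
    exact h6
  have := congrArg (fun f : O U => f.1 u0) (h0 fun s =>
    h7.injective (ContinuousMap.ext fun u => (h3 _).trans (h3 _).symm))
  simp at this

lemma wind (f g : ℂ → ℂ) (hf : Continuous f) (hg : Continuous g) (f0 : ∀ z, f z ≠ 0)
    (g0 : ∀ z, g z ≠ 0) (h : ∀ t : ℝ, g (exp (-(t * I))) = exp (t * I) * f (exp (t * I))) :
    False := by
  have sc : IsSimplyConnected (univ : Set ℂ) := by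
    have := (convex_univ (𝕜 := ℝ) (E := ℂ)).contractibleSpace ⟨0, trivial⟩
    exact (inferInstance : SimplyConnectedSpace (univ : Set ℂ))
  obtain ⟨F, hF, eF⟩ := exists_continuousOn_eqOn_exp_comp (U := univ) (g := f)
    sc isOpen_univ hf.continuousOn (by simpa using f0)
  obtain ⟨G, hG, eG⟩ := exists_continuousOn_eqOn_exp_comp (U := univ) (g := g)
    sc isOpen_univ hg.continuousOn (by simpa using g0)
  rw [continuousOn_univ] at hF hG
  have e : ∀ t : ℝ, exp (G (exp (-(t * I))) - F (exp (t * I)) - t * I) = 1 := fun t => by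
    rw [exp_sub, exp_sub, show exp (G _) = _ from eG trivial, show exp (F _) = _ from eF trivial, h]
    have := f0 (exp (t * I))
    field_simp
  have := isCoveringMap_exp.const_of_comp
    (g := fun t : ℝ => G (exp (-(t * I))) - F (exp (t * I)) - t * I) (by fun_prop)
    (fun s t => Subtype.ext ((e s).trans (e t).symm)) 0 (2 * Real.pi)
  simp [exp_neg] at this
  exact two_pi_I_ne_zero (by linear_combination this)

def q (u : Fin 3 → ℂ) : ℂ := u 0 ^ 2 + u 1 * u 2

noncomputable def M1 (z : ℂ) : Fin 3 → ℂ :=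
  ![(1 - z * star z) / (1 + z * star z), 2 * star z / (1 + z * star z), 2 * z / (1 + z * star z)]

noncomputable def M2 (z : ℂ) : Fin 3 → ℂ :=
  ![(z * star z - 1) / (1 + z * star z), 2 * z / (1 + z * star z), 2 * star z / (1 + z * star z)]

lemma N0 (z : ℂ) : 1 + z * star z ≠ 0 := by
  rw [star_def, mul_conj]
  exact_mod_cast (show (0 : ℝ) < 1 + normSq z by linarith [normSq_nonneg z]).ne'

lemma M1c : Continuous M1 := by
  have := N0
  refine continuous_pi fun i => ?_
  fin_cases i <;> simp only [M1] <;> exact Continuous.div (by fun_prop) (by fun_prop) N0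

lemma M2c : Continuous M2 := by
  refine continuous_pi fun i => ?_
  fin_cases i <;> simp only [M2] <;> exact Continuous.div (by fun_prop) (by fun_prop) N0

lemma q1 (z : ℂ) : q (M1 z) = 1 := by
  have := N0 z
  simp only [q, M1, Matrix.cons_val_zero, Matrix.cons_val_one, Matrix.cons_val]
  field_simp; ring

lemma q2 (z : ℂ) : q (M2 z) = 1 := by
  have := N0 z
  simp only [q, M2, Matrix.cons_val_zero, Matrix.cons_val_one, Matrix.cons_val]
  field_simp; ring

lemma M12 (t : ℝ) : M2 (exp (-(t * I))) = M1 (exp (t * I)) := by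
  have h1 : star (exp (t * I)) = exp (-(t * I)) := by simp [← exp_conj]
  have h2 : star (exp (-(t * I))) = exp (t * I) := by simp [← exp_conj]
  have h3 : exp (t * I) * exp (-(t * I)) = 1 := by simp [← exp_add]
  simp only [M1, M2, h1, h2, h3, mul_comm (exp (-(t * I))), sub_self]

theorem result : ∃ (n : ℕ) (U : Set (Fin n → ℂ)), 1 ≤ n ∧ IsOpen U ∧ IsConnected U ∧
    ∃ (A : Type) (_ : CommRing A) (_ : Algebra ℂ A) (_ : TopologicalSpace A) (i : A → C(U, ℂ)),
      IsAlg (IsHol U) A i ∧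
    ∃ (X : Type) (_ : AddCommGroup X) (_ : Module ℂ X) (_ : UniformSpace X) (_ : Module A X),
      IsPolyMod A X ∧ IsProj A X ∧ ¬ IsFree (IsHol U) A i X := by
  let W : Set (Fin 3 → ℂ) := q ⁻¹' slitPlane
  have qd : Differentiable ℂ q := by unfold q; fun_prop
  have w1 : range M1 ⊆ W := by rintro _ ⟨z, rfl⟩; simp [W, q1]
  have w2 : range M2 ⊆ W := by rintro _ ⟨z, rfl⟩; simp [W, q2]
  set U := connectedComponentIn W (M1 1) with hUd
  have hU : IsOpen U := (isOpen_slitPlane.preimage qd.continuous).connectedComponentIn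
  have hW : U ⊆ W := connectedComponentIn_subset _ _
  have u1 : range M1 ⊆ U := (isPreconnected_range M1c).subset_connectedComponentIn ⟨1, rfl⟩ w1
  have u2 : range M2 ⊆ U := (isPreconnected_range M2c).subset_connectedComponentIn
    ⟨1, by simpa using M12 0⟩ w2
  have hd : ∀ i, DifferentiableOn ℂ (fun u => exp (-(log (q u)) * 2⁻¹) * u i) U := fun i u hu =>
    (((((qd u).clog (hW hu)).neg.mul_const 2⁻¹).cexp).mul (by fun_prop)).differentiableWithinAt
  let r : Fin 3 → O U := fun i => ⟨⟨fun u => exp (-(log (q u)) * 2⁻¹) * u.1 i,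
    continuousOn_iff_continuous_domRestrict.1 (hd i).continuousOn⟩, IsHol.of_diff (hd i)⟩
  have hr : ∀ i (u : U), q u = 1 → (r i).1 u = u.1 i := fun i u h => by
    show exp (-(log (q u)) * 2⁻¹) * u.1 i = _
    simp [h]
  refine ⟨3, U, by norm_num, hU, isConnected_connectedComponentIn_iff.2 (w1 ⟨1, rfl⟩),
    O U, inferInstance, inferInstance, inferInstance, Subtype.val,
    ⟨.subtypeVal, fun f => by rw [Subtype.range_coe]; rfl, fun _ _ _ => rfl, fun _ _ _ => rfl,
      fun c u => by simp⟩,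
    main hU ⟨_, u1 ⟨1, rfl⟩⟩ (r 0) (r 1) (r 2) ?_ fun s1 s2 k1 k2 => ?_⟩
  · refine Subtype.ext (ContinuousMap.ext fun u => ?_)
    show (exp (-(log (q u)) * 2⁻¹) * u.1 0) ^ 2 + exp (-(log (q u)) * 2⁻¹) * u.1 1 *
      (exp (-(log (q u)) * 2⁻¹) * u.1 2) = 1
    have h1 : exp (-(log (q u)) * 2⁻¹) ^ 2 * q u = 1 := by
      rw [← exp_nat_mul, show ((2 : ℕ) : ℂ) * (-(log (q u)) * 2⁻¹) = -log (q u) by push_cast; ring,
        exp_neg, exp_log (slitPlane_ne_zero (hW u.2)), inv_mul_cancel₀ (slitPlane_ne_zero (hW u.2))]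
    unfold q at h1 ⊢
    linear_combination h1
  · by_contra hn
    push Not at hn
    have e1 : ∀ z, s2.1 ⟨M1 z, u1 ⟨z, rfl⟩⟩ = z * s1.1 ⟨M1 z, u1 ⟨z, rfl⟩⟩ := fun z => by
      have h := congrArg (fun f : O U => f.1 ⟨M1 z, u1 ⟨z, rfl⟩⟩) k2
      have := N0 z
      simp only [AddSubgroupClass.coe_sub, MulMemClass.coe_mul, ContinuousMap.sub_apply,
        ContinuousMap.mul_apply, hr _ ⟨M1 z, u1 ⟨z, rfl⟩⟩ (q1 z)] at h
      generalize s2.1 _ = y at *
      generalize s1.1 _ = x at *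
      simp only [M1, Matrix.cons_val_zero, Matrix.cons_val] at h
      field_simp at h
      linear_combination -h / 2
    have e2 : ∀ z, s1.1 ⟨M2 z, u2 ⟨z, rfl⟩⟩ = z * s2.1 ⟨M2 z, u2 ⟨z, rfl⟩⟩ := fun z => by
      have h := congrArg (fun f : O U => f.1 ⟨M2 z, u2 ⟨z, rfl⟩⟩) k1
      have := N0 z
      simp only [AddMemClass.coe_add, MulMemClass.coe_mul, ContinuousMap.add_apply,
        ContinuousMap.mul_apply, hr _ ⟨M2 z, u2 ⟨z, rfl⟩⟩ (q2 z)] at h
      generalize s2.1 _ = y at *
      generalize s1.1 _ = x at *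
      simp only [M2, Matrix.cons_val_zero, Matrix.cons_val_one] at h
      field_simp at h
      linear_combination -h / 2
    refine wind (fun z => s1.1 ⟨M1 z, u1 ⟨z, rfl⟩⟩) (fun z => s2.1 ⟨M2 z, u2 ⟨z, rfl⟩⟩)
      (s1.1.continuous.comp (M1c.subtype_mk _)) (s2.1.continuous.comp (M2c.subtype_mk _))
      (fun z h => hn _ h (by rw [e1, h, mul_zero])) (fun z h => hn _ (by rw [e2, h, mul_zero]) h)
      fun t => ?_
    rw [← e1]
    simp only [M12]

end Pool.Agent.Results.MP_978236_an.No
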